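import Pool.Agent.NH79.Tad.Fin

/-!
# The SSP tadpoles

For `m ≥ 3` and `n ≥ 1` every matrix of the tadpole `T_{m,n}` has the strong spectral property if
and only if `m ≤ 2 n + 3`. This answers Q2.

The direction `m ≤ 2 n + 3` is the earlier result `LongTails`. For `m ≥ 2 n + 4` a matrix without
the strong spectral property is constructed. It is symmetric under the reflection of the cycle,
its entries on the cycle are periodic with period `n + 1` (a uniform Jacobi matrix with a defect at
every multiple of `n + 1`), and the tail is a Jacobi matrix realising two prescribed consecutive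
characteristic polynomials. The commuting matrix comes from a linear functional on polynomials
applied to the (folded) adjugates of `x - A`.
-/

set_option autoImplicit false

namespace Pool.Agent.Results.MP_34deb4_co.TadpoleClassification

open Pool.Agent.Results.MP_34deb4_co.LongTails

/-- **The tadpole `T_{m,n}` (`m ≥ 3`, `n ≥ 1`) is an SSP graph if and only if `m ≤ 2 n + 3`.** -/
theorem result : ∀ m n : ℕ, 3 ≤ m → 1 ≤ n → (IsSSPGraph (tadpole m n) ↔ m ≤ 2 * n + 3) := by
  intro m n hm hn
  refine ⟨fun h => ?_, fun h => LongTails.result m n hm hn h⟩
  by_contra hcon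
  rcases Nat.even_or_odd' m with ⟨k, hk | hk⟩
  · exact NH79.Tad.not_ssp (h := k) (e := 0) hn (by omega) (Or.inl ⟨hk, rfl⟩) h
  · exact NH79.Tad.not_ssp (h := k) (e := 1) hn (by omega) (Or.inr ⟨hk, rfl⟩) h

end Pool.Agent.Results.MP_34deb4_co.TadpoleClassification
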